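import Pool.Agent.Y552.Qr.Main

set_option autoImplicit false

/-!
There is a context-free language which is not a generator of the cone of the context-free
languages and whose cone contains all the quasi-rational (non-expansive) languages.
-/

namespace Pool.Agent.Results.MP_2d18ab_lc.NonGenerator

open Pool.Agent.Y552.Qr Pool.Agent.Helper288.Cone

theorem result : ∃ (X : Type) (_ : Fintype X) (L : Language X), L.IsContextFree ∧
    (∀ (Y : Type) [Fintype Y] (N : Language Y), Qrt Y N → InCone L N) ∧
    ∃ (Y : Type) (_ : Fintype Y) (N : Language Y), N.IsContextFree ∧ ¬ InCone L N :=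
  ⟨Xa, inferInstance, Lang, lang_contextFree, fun _ _ N hN => qrt_inCone N hN,
    Fin 4, inferInstance, EL, EL_contextFree, EL_not_inCone⟩

end Pool.Agent.Results.MP_2d18ab_lc.NonGenerator
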